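import Mathlib
import Pool.Agent.Lib.MP_8bbda9_gt.Homeo

/-!
MP_8bbda9_gt, question 1: a negative answer in ZFC, already for linear homeomorphisms of the
function spaces `C_p` (`l`-equivalence) and for a topological sum with one convergent sequence.
-/

set_option autoImplicit false
universe u

namespace Pool.Agent.Results.MP_8bbda9_gt.LinearEquivalence

open Set Topology Filter Cardinal TopologicalSpace
open Pool.Agent.Lib.MP_8bbda9_gt

/-- `C_p(X)`: the real vector space of all continuous functions `X → ℝ`, as a linear subspace of the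
product `X → ℝ`; its topology is the subspace topology of the product, that is, the topology of
pointwise convergence. -/
def Cp (X : Type u) [TopologicalSpace X] : Submodule ℝ (X → ℝ) where
  carrier := {f | Continuous f}
  add_mem' := fun hf hg => Continuous.add hf hg
  zero_mem' := continuous_zero
  smul_mem' := fun r _ hf => Continuous.const_smul hf r

/-! ### clopen bases -/

lemma basis_Pt : IsTopologicalBasis {s : Set Pt.{u} | IsClopen s} := by
  refine isTopologicalBasis_of_isOpen_of_nhds (fun s hs => hs.2) fun x U hx hU => ?_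
  obtain ⟨V, hV, rfl⟩ := isEmbedding_e.{u}.isInducing.isOpen_iff.mp hU
  obtain ⟨s, hs, hxs, hsV⟩ := (isTopologicalBasis_isClopen
    (X := Kp.{u} → Bool)).exists_subset_of_mem_open hx hV
  exact ⟨e ⁻¹' s, hs.preimage isEmbedding_e.continuous, hxs, Set.preimage_mono hsV⟩

lemma basis_Sq : IsTopologicalBasis {s : Set Sq.{u} | IsClopen s} :=
  isTopologicalBasis_isClopen

lemma basis_sum {X Y : Type u} [TopologicalSpace X] [TopologicalSpace Y]
    (hX : IsTopologicalBasis {s : Set X | IsClopen s})
    (hY : IsTopologicalBasis {s : Set Y | IsClopen s}) :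
    IsTopologicalBasis {s : Set (X ⊕ Y) | IsClopen s} := by
  refine isTopologicalBasis_of_isOpen_of_nhds (fun s hs => hs.2) fun x U hx hU => ?_
  rcases x with x | y
  · obtain ⟨s, hs, hxs, hsV⟩ := hX.exists_subset_of_mem_open (a := x)
      (show x ∈ Sum.inl ⁻¹' U from hx) (hU.preimage continuous_inl)
    exact ⟨Sum.inl '' s, ⟨IsClosedEmbedding.inl.isClosedMap _ hs.1,
      IsOpenEmbedding.inl.isOpenMap _ hs.2⟩, ⟨x, hxs, rfl⟩, Set.image_subset_iff.mpr hsV⟩
  · obtain ⟨s, hs, hxs, hsV⟩ := hY.exists_subset_of_mem_open (a := y)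
      (show y ∈ Sum.inr ⁻¹' U from hx) (hU.preimage continuous_inr)
    exact ⟨Sum.inr '' s, ⟨IsClosedEmbedding.inr.isClosedMap _ hs.1,
      IsOpenEmbedding.inr.isOpenMap _ hs.2⟩, ⟨y, hxs, rfl⟩, Set.image_subset_iff.mpr hsV⟩

/-! ### cardinality -/

lemma mk_Zt : #(Zt.{u}) = 𝔠 := by
  simp [Zt]

lemma mk_W : #(W.{u}) = 𝔠 := by
  apply le_antisymm
  · have h1 : #(W.{u}) = #{t : Set Zt.{u} // #t ≤ ℵ₀} := by
      refine Cardinal.mk_congr (Equiv.subtypeEquivRight fun s => ?_)
      exact (Cardinal.le_aleph0_iff_set_countable).symm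
    rw [h1]
    refine (Cardinal.mk_bounded_set_le _ _).trans ?_
    rw [mk_Zt, max_eq_left aleph0_le_continuum]
    simp
  · rw [← mk_Zt.{u}]
    exact Cardinal.mk_le_of_injective (f := fun z : Zt.{u} => (⟨{z}, Set.countable_singleton z⟩ :
      W.{u})) fun z w h => by simpa using h

lemma mk_Lt : #(Lt.{u}) = 𝔠 := by
  have h2 : #(W.{u} × Bool) = 𝔠 := by
    rw [Cardinal.mk_prod, mk_W]
    simp
  rw [show #(Lt.{u}) = #(W.{u} × (W.{u} × Bool)) from rfl, Cardinal.mk_prod, mk_W, h2]
  simp

lemma mk_Pt : #(Pt.{u}) = 𝔠 := by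
  have h1 : Pt.{u} ≃ W.{u} × (ℕ → Lt.{u}) :=
    ⟨fun x => (x.rk, x.code), fun x => ⟨x.1, x.2⟩, fun _ => rfl, fun _ => rfl⟩
  have h2 : #(ℕ → Lt.{u}) = 𝔠 := by
    rw [Cardinal.mk_arrow, mk_Lt]
    simp
  rw [Cardinal.mk_congr h1, Cardinal.mk_prod, mk_W, h2]
  simp

/-! ### the linear homeomorphism -/

lemma E_add (s t : ℕ → ℝ) (x : Pt.{u}) : E (s + t) x = E s x + E t x := by
  unfold E
  rcases idx x with _ | n <;> simp

lemma E_smul (r : ℝ) (t : ℕ → ℝ) (x : Pt.{u}) : E (r • t) x = r * E t x := by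
  unfold E
  rcases idx x with _ | n <;> simp

lemma T_add (f g : Pt.{u} → ℝ) : T (f + g) = T f + T g := by
  funext n
  simp only [T, Pi.add_apply]
  ring

lemma T_smul (r : ℝ) (f : Pt.{u} → ℝ) : T (r • f) = r • T f := by
  funext n
  simp only [T, Pi.smul_apply, smul_eq_mul]
  ring

lemma fwd_add (f g : Pt.{u} → ℝ) : fwd (f + g) = fwd f + fwd g := by
  funext y
  rcases y with x | y
  · have h : (fun n => T (f + g) (2 * n)) = (fun n => T f (2 * n)) + fun n => T g (2 * n) := by
      rw [T_add]; rfl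
    simp only [fwd, Sum.elim_inl, Pi.add_apply]
    rw [h, T_add, E_add, E_add]
    ring
  · induction y using OnePoint.rec with
    | infty => simp [fwd, hS, T_add]
    | coe n =>
      simp only [fwd, Sum.elim_inr, hS, T_add, Pi.add_apply, OnePoint.elim_some]
      ring

lemma fwd_smul (r : ℝ) (f : Pt.{u} → ℝ) : fwd (r • f) = r • fwd f := by
  funext y
  rcases y with x | y
  · have h : (fun n => T (r • f) (2 * n)) = r • fun n => T f (2 * n) := by
      rw [T_smul]; rfl
    simp only [fwd, Sum.elim_inl, Pi.smul_apply, smul_eq_mul]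
    rw [h, T_smul, E_smul, E_smul]
    ring
  · induction y using OnePoint.rec with
    | infty => simp [fwd, hS, T_smul]
    | coe n =>
      simp only [fwd, Sum.elim_inr, hS, T_smul, Pi.smul_apply, smul_eq_mul, OnePoint.elim_some]
      ring

/-- The linear homeomorphism of the function spaces. -/
noncomputable def linHomeo : Cp Pt.{u} ≃L[ℝ] Cp (Pt.{u} ⊕ Sq.{u}) where
  toFun f := ⟨fwd f.1, continuous_fwd f.2⟩
  invFun g := ⟨bwd g.1, continuous_bwd g.2⟩
  left_inv f := Subtype.ext (bwd_fwd f.1)
  right_inv g := Subtype.ext (fwd_bwd g.1)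
  map_add' f g := Subtype.ext (fwd_add f.1 g.1)
  map_smul' r f := Subtype.ext (fwd_smul r f.1)
  continuous_toFun := homeo.{u}.continuous_toFun
  continuous_invFun := homeo.{u}.continuous_invFun

/-! ### the convergent sequence -/

/-- `OnePoint` of the lifted natural numbers is `OnePoint ℕ`. -/
noncomputable def sqHomeo : Sq.{u} ≃ₜ OnePoint ℕ :=
  Homeomorph.onePointCongr Homeomorph.ulift

lemma tendsto_coe : Tendsto (fun n : ℕ => ((ULift.up n : ULift.{u} ℕ) : Sq.{u})) atTop
    (𝓝 OnePoint.infty) := by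
  have h := OnePoint.tendsto_coe_infty (X := ULift.{u} ℕ)
  rw [coclosedCompact_eq_cocompact, cocompact_eq_cofinite] at h
  refine h.comp ?_
  rw [← Nat.cofinite_eq_atTop]
  exact ULift.up_injective.tendsto_cofinite

/-- A negative answer to Arhangel'skii's question, in ZFC and in every universe. There are
zero-dimensional Tychonoff spaces `X` and `Y` of cardinality continuum such that every countable
subset of `X` is closed, `C_p(X)` and `C_p(Y)` are linearly homeomorphic, `Y` is the topological sum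
of `X` and a convergent sequence, and so the range of an injective convergent sequence of points of
`Y` is a countable set that is not closed. -/
theorem result : ∃ (X Y : Type u) (_ : TopologicalSpace X) (_ : TopologicalSpace Y),
    T35Space X ∧ T35Space Y ∧
    IsTopologicalBasis {s : Set X | IsClopen s} ∧ IsTopologicalBasis {s : Set Y | IsClopen s} ∧
    #X = 𝔠 ∧ #Y = 𝔠 ∧
    Nonempty (Y ≃ₜ X ⊕ OnePoint ℕ) ∧
    Nonempty (Cp X ≃L[ℝ] Cp Y) ∧
    (∀ s : Set X, s.Countable → IsClosed s) ∧
    ∃ (y : ℕ → Y) (z : Y), Function.Injective y ∧ Tendsto y atTop (𝓝 z) ∧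
      ¬ IsClosed (Set.range y) := by
  refine ⟨Pt.{u}, Pt.{u} ⊕ Sq.{u}, inferInstance, inferInstance, inferInstance, inferInstance,
    basis_Pt, basis_sum basis_Pt basis_Sq, mk_Pt, ?_, ⟨(Homeomorph.refl _).sumCongr sqHomeo⟩,
    ⟨linHomeo⟩, fun s hs => isClosed_of_countable hs,
    fun n => Sum.inr ((ULift.up n : ULift.{u} ℕ) : Sq.{u}), Sum.inr OnePoint.infty, ?_, ?_, ?_⟩
  · have h : Countable Sq.{u} := by
      unfold Sq OnePoint
      infer_instance
    rw [Cardinal.mk_sum, mk_Pt]
    simp only [lift_id]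
    exact Cardinal.add_eq_left aleph0_le_continuum
      ((Cardinal.mk_le_aleph0 (α := Sq.{u})).trans aleph0_le_continuum)
  · intro m n h
    have h1 := OnePoint.coe_injective (Sum.inr_injective h)
    exact ULift.up_injective h1
  · exact (continuous_inr.tendsto _).comp tendsto_coe
  · intro h
    refine not_isClosed_range.{u} ?_
    convert h using 1
    ext y
    constructor
    · rintro ⟨n, rfl⟩
      exact ⟨n.down, rfl⟩
    · rintro ⟨n, rfl⟩
      exact ⟨ULift.up n, rfl⟩

end Pool.Agent.Results.MP_8bbda9_gt.LinearEquivalence
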